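import Pool.Agent.helper80.SG.Spec3

set_option autoImplicit false

namespace Pool.Agent.SG

open Pool.Agent.SV

theorem B4_choose (n d : ℕ) (hd : 1 ≤ d) : n + 1 ≤ (n + d).choose n := by
  have h1 : (n + 1).choose n ≤ (n + d).choose n := Nat.choose_le_choose n (by omega)
  rwa [Nat.choose_succ_self_right] at h1

theorem B4_choose2 (n d : ℕ) (hn : 1 ≤ n) (hd : 2 ≤ d) : n ≤ (n + d - 2).choose (n - 1) := by
  obtain ⟨m, rfl⟩ : ∃ m, n = m + 1 := ⟨n - 1, by omega⟩
  have h1 : (m + 1).choose m ≤ (m + 1 + d - 2).choose m := Nat.choose_le_choose m (by omega)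
  rw [Nat.choose_succ_self_right] at h1
  exact h1

theorem B4 (hT : THR_stmt) (hS : ST2_stmt) : B4_stmt := by
  intro n d hn hnn hd
  -- the smallest and the largest index
  obtain ⟨ia, -, hia⟩ := Finset.exists_min_image (Finset.univ : Finset (Fin 4)) n ⟨0, Finset.mem_univ _⟩
  obtain ⟨iA, -, hiA⟩ := Finset.exists_max_image (Finset.univ : Finset (Fin 4)) n ⟨0, Finset.mem_univ _⟩
  obtain ⟨a, ha⟩ : ∃ a, a = n ia := ⟨_, rfl⟩
  obtain ⟨A, hA⟩ : ∃ A, A = n iA := ⟨_, rfl⟩
  have hlo : ∀ i, a ≤ n i := fun i => ha ▸ hia i (Finset.mem_univ _)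
  have hup : ∀ i, n i ≤ A := fun i => hA ▸ hiA i (Finset.mem_univ _)
  have hAa : 110 * A ^ 3 ≤ a ^ 4 := by
    rw [ha, hA]
    exact hnn iA ia
  have h1a : 1 ≤ a := ha ▸ hn ia
  have haA : a ≤ A := (hlo 0).trans (hup 0)
  have h110 : 110 ≤ a := by
    have h1 : 110 * a ^ 3 ≤ a * a ^ 3 := by
      calc 110 * a ^ 3 ≤ 110 * A ^ 3 := Nat.mul_le_mul_left _ (Nat.pow_le_pow_left haA 3)
        _ ≤ a ^ 4 := hAa
        _ = a * a ^ 3 := by ring
    exact Nat.le_of_mul_le_mul_right h1 (by positivity)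
  have h110A : 110 ≤ A := h110.trans haA
  have hsum : ∑ i, n i = n 0 + n 1 + n 2 + n 3 := Fin.sum_univ_four n
  have hN : ∑ i, n i ≤ 4 * A := by
    have h0 := hup 0
    have h1 := hup 1
    have h2 := hup 2
    have h3 := hup 3
    omega
  have hN3 : (∑ i, n i + 1) ^ 3 ≤ 65 * A ^ 3 := by
    have h1 : 110 * (∑ i, n i + 1) ≤ 441 * A := by omega
    have h2 : (110 * (∑ i, n i + 1)) ^ 3 ≤ (441 * A) ^ 3 := Nat.pow_le_pow_left h1 3
    rw [mul_pow, mul_pow] at h2
    have h3 : 110 ^ 3 * (∑ i, n i + 1) ^ 3 ≤ 110 ^ 3 * (65 * A ^ 3) := by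
      refine h2.trans ?_
      rw [← mul_assoc]
      exact Nat.mul_le_mul_right _ (by norm_num)
    exact Nat.le_of_mul_le_mul_left h3 (by norm_num)
  have hprod : ∀ j : Fin 4, (a + 1) ^ 3 ≤ ∏ i ∈ Finset.univ.erase j, (n i + d i).choose (n i) := by
    intro j
    have h1 : (Finset.univ.erase j).card = 3 := by
      rw [Finset.card_erase_of_mem (Finset.mem_univ _)]
      rfl
    calc (a + 1) ^ 3 = ∏ i ∈ Finset.univ.erase j, (a + 1) := by
          rw [Finset.prod_const, h1]
      _ ≤ ∏ i ∈ Finset.univ.erase j, (n i + d i).choose (n i) :=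
          Finset.prod_le_prod (fun _ _ => Nat.zero_le _) fun i _ =>
            (Nat.add_le_add_right (hlo i) 1).trans (B4_choose (n i) (d i) (hd i))
  have hhj : ∀ j : Fin 4, 2 ≤ d j → 110 * A ^ 3 ≤ hj n d j := by
    intro j hj2
    have h1 : a * (a + 1) ^ 3 ≤ hj n d j := by
      unfold hj
      exact Nat.mul_le_mul ((hlo j).trans (B4_choose2 (n j) (d j) (hn j) hj2)) (hprod j)
    have h2 : a ^ 4 ≤ a * (a + 1) ^ 3 := by
      calc a ^ 4 = a * a ^ 3 := by ring
        _ ≤ a * (a + 1) ^ 3 := Nat.mul_le_mul_left _ (Nat.pow_le_pow_left (by omega) 3)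
    exact hAa.trans (h2.trans h1)
  by_cases h3 : ∃ j, 3 ≤ d j
  · obtain ⟨j, hj3⟩ := h3
    refine hT 4 n d (by norm_num) hn hd j (Or.inl ⟨hj3, ?_⟩)
    refine hN3.trans (le_trans ?_ (hhj j (by omega)))
    exact Nat.mul_le_mul_right _ (by norm_num)
  · by_cases h2 : ∃ j, d j = 2
    · obtain ⟨j, hj2⟩ := h2
      refine hT 4 n d (by norm_num) hn hd j (Or.inr ⟨hj2, ?_⟩)
      have hn' : 330 ≤ ∑ i, n i - n j := by
        have h4 : ∑ i, n i = n j + ∑ i ∈ Finset.univ.erase j, n i :=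
          (Finset.add_sum_erase _ _ (Finset.mem_univ j)).symm
        have h5 : (Finset.univ.erase j).card = 3 := by
          rw [Finset.card_erase_of_mem (Finset.mem_univ _)]
          rfl
        have h6 : 3 * a ≤ ∑ i ∈ Finset.univ.erase j, n i := by
          calc 3 * a = ∑ i ∈ Finset.univ.erase j, a := by
                rw [Finset.sum_const, h5, smul_eq_mul]
            _ ≤ _ := Finset.sum_le_sum fun i _ => hlo i
        omega
      obtain ⟨n', hn'e⟩ : ∃ n', ∑ i, n i - n j = n' := ⟨_, rfl⟩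
      rw [hn'e] at hn' ⊢
      have h7 : 65 * (n' + 1) ≤ 110 * (n' - 1) := by omega
      calc (n' + 1) * (∑ i, n i + 1) ^ 3 ≤ (n' + 1) * (65 * A ^ 3) := Nat.mul_le_mul_left _ hN3
        _ = 65 * (n' + 1) * A ^ 3 := by ring
        _ ≤ 110 * (n' - 1) * A ^ 3 := Nat.mul_le_mul_right _ h7
        _ = (n' - 1) * (110 * A ^ 3) := by ring
        _ ≤ (n' - 1) * hj n d j := Nat.mul_le_mul_left _ (hhj j (by omega))
    · have hd1 : ∀ i, d i = 1 := by
        intro i
        have h4 := hd i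
        have h5 : ¬ 3 ≤ d i := fun h => h3 ⟨i, h⟩
        have h6 : ¬ d i = 2 := fun h => h2 ⟨i, h⟩
        omega
      refine hS 4 n d hn hd 0 (hd1 0) (by have := hlo 0; omega) (Finset.univ.erase 0)
        (Finset.notMem_erase _ _) ?_ ?_
      · calc ∑ i ∈ Finset.univ.erase (0 : Fin 4), d i = ∑ i ∈ Finset.univ.erase (0 : Fin 4), 1 :=
              Finset.sum_congr rfl fun i _ => hd1 i
          _ = 3 := by
              rw [Finset.sum_const, smul_eq_mul, mul_one, Finset.card_erase_of_mem (Finset.mem_univ _)]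
              rfl
      · have hm : a ≤ n 0 := hlo 0
        have hnle : ∑ i, n i - n 0 ≤ 3 * A := by
          have h1 := hup 1
          have h2 := hup 2
          have h3 := hup 3
          omega
        obtain ⟨N, hNe⟩ : ∃ N, ∑ i, n i = N := ⟨_, rfl⟩
        obtain ⟨q, hqe⟩ : ∃ q, ∑ i, n i - n 0 = q := ⟨_, rfl⟩
        obtain ⟨m, hme⟩ : ∃ m, n 0 = m := ⟨_, rfl⟩
        rw [hqe] at hnle ⊢
        rw [hNe] at hN ⊢
        rw [hme] at hm ⊢
        have e1 : 110 * (N + 1) ≤ 441 * A := by omega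
        have e2 : 110 * (q + 1) ≤ 331 * A := by omega
        have e3 : 110 * (a * (2 * q + 3 * m + 3)) ≤ 993 * (A * m) := by
          have f1 : a * q ≤ 3 * (A * m) := by
            calc a * q ≤ m * (3 * A) := Nat.mul_le_mul hm hnle
              _ = 3 * (A * m) := by ring
          have f2 : a * m ≤ A * m := Nat.mul_le_mul_right _ haA
          have f3 : a * 110 ≤ A * m := Nat.mul_le_mul haA (h110.trans hm)
          calc 110 * (a * (2 * q + 3 * m + 3)) = 220 * (a * q) + 330 * (a * m) + 3 * (a * 110) := by ring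
            _ ≤ 220 * (3 * (A * m)) + 330 * (A * m) + 3 * (A * m) := by
                refine Nat.add_le_add (Nat.add_le_add ?_ ?_) ?_
                · exact Nat.mul_le_mul_left _ f1
                · exact Nat.mul_le_mul_left _ f2
                · exact Nat.mul_le_mul_left _ f3
            _ = 993 * (A * m) := by ring
        have e4 : 110 ^ 3 * (a * ((N + 1) * (q + 1) * (2 * q + 3 * m + 3))) ≤ 110 ^ 3 * (a * (m * a ^ 3)) := by
          calc 110 ^ 3 * (a * ((N + 1) * (q + 1) * (2 * q + 3 * m + 3)))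
              = (110 * (N + 1)) * (110 * (q + 1)) * (110 * (a * (2 * q + 3 * m + 3))) := by ring
            _ ≤ (441 * A) * (331 * A) * (993 * (A * m)) :=
                Nat.mul_le_mul (Nat.mul_le_mul e1 e2) e3
            _ = 144949203 * (A ^ 3 * m) := by ring
            _ ≤ 146410000 * (A ^ 3 * m) := Nat.mul_le_mul_right _ (by norm_num)
            _ = 110 ^ 3 * m * (110 * A ^ 3) := by ring
            _ ≤ 110 ^ 3 * m * a ^ 4 := Nat.mul_le_mul_left _ hAa
            _ = 110 ^ 3 * (a * (m * a ^ 3)) := by ring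
        have e5 := Nat.le_of_mul_le_mul_left e4 (by norm_num)
        have e6 := Nat.le_of_mul_le_mul_left e5 (by omega)
        refine e6.trans (Nat.mul_le_mul_left _ ?_)
        exact (Nat.pow_le_pow_left (by omega) 3).trans (hprod 0)

end Pool.Agent.SG
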